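import Pool.Agent.H.MP_537c9d_co.U

namespace Pool.Agent.Results.MP_52d8fd_co.Five

open Pool.Agent.H.MP_537c9d_co

theorem result :
    (∀ (k : ℕ) (s : List ℕ), IsWCS k s → ∃ (n : ℕ) (s₀ : List ℕ), Start k n s₀ ∧ Der k n s₀ s) ∧
    ∀ (k : ℕ), 12 ≤ k → ∀ (n n' : ℕ) (s₀ s₁ s : List ℕ) (S S' : Finset (ℕ × ℕ)) (b b' : Bool),
      Start k n s₀ → Start k n' s₁ → RD k n s₀ S b s → RD k n' s₁ S' b' s →
        n = n' ∧ s₀ = s₁ ∧ S = S' ∧ b = b' :=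
  ⟨fun _ _ h => h.dv, fun _ hk _ _ _ _ _ _ _ _ _ a b c d => unique hk a b c d⟩

end Pool.Agent.Results.MP_52d8fd_co.Five
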