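import Pool.Agent.H.MP_537c9d_co.G

namespace Pool.Agent.Results.MP_52d8fd_co.No

open Pool.Agent.H.MP_537c9d_co

def B : List (List ℕ) := [st1 22, st2 22, st3 22 11]
def S1 : List (List ℕ) := B ++ B.map (exch 16 8)
def S : List (List ℕ) := S1 ++ S1.map List.reverse

theorem closed : ∀ s ∈ S, exch 16 8 s ∈ S ∧ s.reverse ∈ S := by decide +kernel

def w : List ℕ := [22, 3, 4, 5, 6, 7, 8, 9, 10, 13, 12, 11, 14, 15, 16, 17, 18, 19, 20, 21, 2, 1]

theorem wd : ∀ m < 23, ∀ i j : Fin w.length, m ∣ w[i] →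
    (m : ℤ) ∣ ((i : ℕ) : ℤ) - ((j : ℕ) : ℤ) → m ∣ w[j] := by decide +kernel

theorem wb : ∀ i : Fin w.length, 0 < w[i] ∧ w[i] < 23 := by decide +kernel

theorem result : ∃ (k : ℕ) (s : List ℕ), 1 ≤ k ∧ IsWCS k s ∧
    ¬∃ (n : ℕ) (s₀ : List ℕ), n ≤ 4 ∧ Start k n s₀ ∧ Der k n s₀ s := by
  refine ⟨22, w, by norm_num, ⟨by decide +kernel, fun m i j d =>
    wd m ((Nat.le_of_dvd (wb i).1 d).trans_lt (wb i).2) i j d⟩, ?_⟩
  rintro ⟨n, s₀, n4, h0, h⟩
  have a : n ≠ 4 ∧ s₀ ∈ S := by
    rcases h0 with _ | _ | ⟨p, -, -, e⟩ | ⟨p, -, -, -, e⟩ | _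
    · exact ⟨by omega, by decide +kernel⟩
    · exact ⟨by omega, by decide +kernel⟩
    · obtain rfl : p = 11 := by omega
      exact ⟨by omega, by decide +kernel⟩
    · omega
    · omega
  have : ∀ s, Der 22 n s₀ s → s ∈ S := fun s h => by
    induction h with
    | start => exact a.2
    | twin _ _ e => exact absurd e a.1
    | pps p c s hp c1 u v _ ih =>
      have p2 := hp.two_le
      have c5 : c < 5 := by
        by_contra x
        have := (Nat.pow_le_pow_right (by omega) (not_lt.1 x)).trans' (Nat.pow_le_pow_left p2 5)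
        omega
      have p22 : p ≤ 22 := (Nat.le_self_pow (by omega) p).trans u
      obtain ⟨rfl, rfl⟩ : p = 2 ∧ c = 4 := by
        revert hp u v
        interval_cases p <;> interval_cases c <;> decide
      exact (closed s ih).1
    | rev s _ ih => exact (closed s ih).2
  exact absurd (this _ h) (by decide +kernel)

end Pool.Agent.Results.MP_52d8fd_co.No
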